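import Pool.Agent.Helper2.LT.List
import Pool.Agent.Helper81.LT.Surf
import Pool.Agent.Helper63.LT.Fam
import Pool.Agent.Helper98.NK.Main
import Pool.Agent.Helper14.S8.Main
import Pool.Agent.Helper94.QS.Main
import Pool.Agent.Helper24.S5.Prim
import Pool.Agent.Helper27.S4.Fin
import Pool.Agent.Helper90.GS.Main
import Pool.Agent.Helper81.C9.Fin
import Pool.Agent.Helper55.C6.Main
import Pool.Agent.Helper2.PGN.G2
import Pool.Agent.Helper27.PGK.Uni
import Pool.Agent.Helper55.QU.Main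
import Pool.Agent.Helper14.WH.Concl
import Pool.Agent.Helper81.LT.Gcd

/-!
Polarised rational Hodge structures of even weight with three Hodge numbers `s, h, s` and only scalar endomorphisms, for all
numbers `s > 1` and `h > 0`: the Mumford-Tate group is always the group of all similitudes if and only if the pair `(s, h)` is
not in an explicit list.
-/

open Matrix MH

namespace Pool.Agent.Results.MP_b8862a_ag.AllGeometricGenera

/-- The exceptional pairs: two factors; tensor powers; the adjoint module of `SL_(k+l)`; the exterior powers of the standard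
module of `SO_(M+2)`; the Cartan products of the exterior powers of the standard module of `SL_(M+1)` and their duals; the
middle exterior power for `SL_(2i+4)`, two cocharacters; the primitive exterior powers of the standard module of `Sp_(2r+2)`
(two clauses); the symmetric and exterior squares for `Sp_(2r)` and `SO_(2r)`, Siegel type; `G_2`, `F_4`, `E_6`, `E_7`. -/
def Exc (s h : ℕ) : Prop :=
  h = 2 * s ∨
  (∃ D k : ℕ, 2 ≤ k ∧ 2 * s + h = D ^ k ∧ D ^ (k - 1) ∣ s) ∨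
  (∃ k l : ℕ, s = k * l ∧ h + 1 = k ^ 2 + l ^ 2) ∨
  (∃ M i : ℕ, 2 * i + 3 ≤ M ∧ s = M.choose (i + 1) ∧ h = M.choose i + M.choose (i + 2)) ∨
  (∃ M i : ℕ, 2 * i + 3 ≤ M ∧ s + M.choose (i + 1) * M.choose i = M.choose (i + 1) * M.choose (i + 2) ∧
    h + M.choose i ^ 2 = M.choose (i + 2) ^ 2) ∨
  (∃ M i : ℕ, 2 * i + 2 = M ∧ 0 < i ∧ Even i ∧
    (s = M.choose (i + 1) ∧ h = 2 * M.choose i ∨ s = M.choose i ∧ h = 2 * M.choose (i + 1))) ∨
  (∃ r : ℕ, 2 ≤ r ∧ s = 2 * r ∧ h = r * (2 * r - 1)) ∨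
  (∃ r i : ℕ, Even i ∧ i + 3 ≤ r ∧ s + (2 * r).choose (i + 1) = (2 * r).choose (i + 3) ∧
    h + (2 * r).choose i = (2 * r).choose (i + 4)) ∨
  (∃ r : ℕ, 3 ≤ r ∧ (2 * s = r * (r - 1) ∨ 2 * s = r * (r + 1)) ∧ (h = r ^ 2 ∨ h + 1 = r ^ 2)) ∨
  (s = 2 ∧ h = 3) ∨ (s = 6 ∧ h = 14) ∨ (s = 16 ∧ h = 46) ∨ (s = 27 ∧ h = 79)

theorem exc_of {s h : ℕ} (hx : LT.Exc s h) : Exc s h := by
  have sym : ∀ i : ℕ, (2 * i + 2).choose (i + 2) = (2 * i + 2).choose i := by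
    intro i
    rw [← Nat.choose_symm (show i ≤ 2 * i + 2 by omega)]
    congr 1
    omega
  rcases hx with h1 | h1 | ⟨k, l, -, h1, h2⟩ | ⟨M, i, hM, h0 | ⟨h0, he⟩, h1, h2⟩ | (h1 | h1) | h1 | ⟨k, hk, he, h1, h2⟩ |
    h1 | h1 | h1 | h1 | h1
  · exact Or.inl h1
  · exact Or.inr (Or.inl h1)
  · exact Or.inr (Or.inr (Or.inl ⟨k, l, h1, h2⟩))
  · exact Or.inr (Or.inr (Or.inr (Or.inl ⟨M, i, h0, h1, by rw [h2, add_comm]⟩)))
  · refine Or.inr (Or.inr (Or.inr (Or.inr (Or.inr (Or.inl ⟨M, i, h0, by omega, he, Or.inl ⟨h1, ?_⟩⟩)))))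
    subst h0
    rw [h2, sym]
    ring
  · exact Or.inr (Or.inr (Or.inr (Or.inr (Or.inr (Or.inr (Or.inl h1))))))
  · exact Or.inr (Or.inr (Or.inr (Or.inr (Or.inr (Or.inr (Or.inr (Or.inl h1)))))))
  · exact Or.inr (Or.inr (Or.inr (Or.inr (Or.inl h1))))
  · obtain ⟨i, rfl⟩ : ∃ i, k = i + 2 := ⟨k - 2, by omega⟩
    have e1 : 2 * (i + 2) - 2 = 2 * i + 2 := by omega
    have e2 : i + 2 - 1 = i + 1 := by omega
    rw [e1] at h1 h2
    rw [e2] at h2
    have he' : Even i := by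
      obtain ⟨q, hq⟩ := he
      exact ⟨q - 1, by omega⟩
    exact Or.inr (Or.inr (Or.inr (Or.inr (Or.inr (Or.inl ⟨2 * i + 2, i, rfl, by omega, he',
      Or.inr ⟨by rw [h1, sym], h2⟩⟩)))))
  · exact Or.inr (Or.inr (Or.inr (Or.inr (Or.inr (Or.inr (Or.inr (Or.inr (Or.inl h1))))))))
  · exact Or.inr (Or.inr (Or.inr (Or.inr (Or.inr (Or.inr (Or.inr (Or.inr (Or.inr (Or.inl h1)))))))))
  · exact Or.inr (Or.inr (Or.inr (Or.inr (Or.inr (Or.inr (Or.inr (Or.inr (Or.inr (Or.inr (Or.inl h1))))))))))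
  · exact Or.inr (Or.inr (Or.inr (Or.inr (Or.inr (Or.inr (Or.inr (Or.inr (Or.inr (Or.inr (Or.inr (Or.inl h1)))))))))))
  · exact Or.inr (Or.inr (Or.inr (Or.inr (Or.inr (Or.inr (Or.inr (Or.inr (Or.inr (Or.inr (Or.inr (Or.inr h1)))))))))))


theorem exc_to {s h : ℕ} (hs : 2 ≤ s) (hx : Exc s h) : LT.Exc s h := by
  have sym : ∀ i : ℕ, (2 * i + 2).choose (i + 2) = (2 * i + 2).choose i := by
    intro i
    rw [← Nat.choose_symm (show i ≤ 2 * i + 2 by omega)]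
    congr 1
    omega
  rcases hx with h1 | h1 | ⟨k, l, h1, h2⟩ | ⟨M, i, hM, h1, h2⟩ | h1 |
    ⟨M, i, rfl, hi, he, ⟨h1, h2⟩ | ⟨h1, h2⟩⟩ | h1 | h1 | h1 | h1 | h1 | h1 | h1
  · exact Or.inl h1
  · exact Or.inr (Or.inl h1)
  · exact Or.inr (Or.inr (Or.inl ⟨k, l, by omega, h1, h2⟩))
  · exact Or.inr (Or.inr (Or.inr (Or.inl ⟨M, i, by omega, Or.inl hM, h1, by rw [h2, add_comm]⟩)))
  · exact Or.inr (Or.inr (Or.inr (Or.inr (Or.inr (Or.inl h1)))))
  · refine Or.inr (Or.inr (Or.inr (Or.inl ⟨2 * i + 2, i, by omega, Or.inr ⟨rfl, he⟩, h1, ?_⟩)))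
    rw [h2, sym]
    ring
  · obtain ⟨q, hq⟩ := he
    refine Or.inr (Or.inr (Or.inr (Or.inr (Or.inr (Or.inr (Or.inl ⟨i + 2, by omega, ⟨q + 1, by omega⟩, ?_, ?_⟩))))))
    · rw [show 2 * (i + 2) - 2 = 2 * i + 2 by omega, sym]
      exact h1
    · rw [show 2 * (i + 2) - 2 = 2 * i + 2 by omega, show i + 2 - 1 = i + 1 by omega]
      exact h2
  · exact Or.inr (Or.inr (Or.inr (Or.inr (Or.inl (Or.inl h1)))))
  · exact Or.inr (Or.inr (Or.inr (Or.inr (Or.inl (Or.inr h1)))))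
  · exact Or.inr (Or.inr (Or.inr (Or.inr (Or.inr (Or.inr (Or.inr (Or.inl h1)))))))
  · exact Or.inr (Or.inr (Or.inr (Or.inr (Or.inr (Or.inr (Or.inr (Or.inr (Or.inl h1))))))))
  · exact Or.inr (Or.inr (Or.inr (Or.inr (Or.inr (Or.inr (Or.inr (Or.inr (Or.inr (Or.inl h1)))))))))
  · exact Or.inr (Or.inr (Or.inr (Or.inr (Or.inr (Or.inr (Or.inr (Or.inr (Or.inr (Or.inr (Or.inl h1))))))))))
  · exact Or.inr (Or.inr (Or.inr (Or.inr (Or.inr (Or.inr (Or.inr (Or.inr (Or.inr (Or.inr (Or.inr h1))))))))))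

/-- all the pairs of the list are exceptions -/
theorem sharp {s h : ℕ} (hs : 2 ≤ s) (hh : 0 < h) (hx : Exc s h) :
    ∃ (n : Type) (_ : Fintype n) (_ : DecidableEq n) (Q : Matrix n n ℚ) (P : ℤ → Matrix n n ℂ),
      IsHW 2 Q {0, 1, 2} P ∧
      (∀ A : Matrix n n ℚ, (∀ p, toC A * P p = P p * toC A) → ∃ c : ℚ, A = c • (1 : Matrix n n ℚ)) ∧
      (P 2).rank = s ∧ (P 1).rank = h ∧ ∃ g : GL n ℂ, IsGQ 2 Q g ∧ g ∉ MT {0, 1, 2} P := by
  rcases hx with rfl | ⟨D, k, hk, h3, t, rfl⟩ | ⟨k, l, rfl, h4⟩ | ⟨M, i, hi, rfl, rfl⟩ | ⟨M, i, hM, h3, h4⟩ |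
    ⟨M, i, rfl, hi, he, ⟨rfl, rfl⟩ | ⟨rfl, rfl⟩⟩ | ⟨r, hr, rfl, h4⟩ | ⟨r, i, he, hir, h3, h4⟩ |
    ⟨r, hr, h3 | h3, h4 | h4⟩ | ⟨rfl, rfl⟩ | ⟨rfl, rfl⟩ | ⟨rfl, rfl⟩ | ⟨rfl, rfl⟩
  · obtain ⟨n, i1, i2, Q, P, H, hEnd, r2, r1, -, g, g1, g2, g3⟩ := PG98.sharp_two_s s hs
    exact ⟨n, i1, i2, Q, P, H, hEnd, r2, r1, g, isGQ_of24 g1 g2, g3⟩
  · -- tensor powers
    have ht : 1 ≤ t := by
      rcases Nat.eq_zero_or_pos t with rfl | h5
      · rw [mul_zero] at hs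
        omega
      · exact h5
    have hk1 : D ^ k = D ^ (k - 1) * D := by
      rw [← pow_succ]
      congr 1
      omega
    have hD : 2 * t < D := by
      rw [hk1] at h3
      have h4 : D ^ (k - 1) * (2 * t) < D ^ (k - 1) * D := by
        calc D ^ (k - 1) * (2 * t) = 2 * (D ^ (k - 1) * t) := by ring
          _ < _ := by omega
      exact Nat.lt_of_mul_lt_mul_left h4
    obtain ⟨n, i1, i2, Q, P, H, hEnd, r2, r1, hg⟩ := sharp_norm_deg k t D hk ht hD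
    refine ⟨n, i1, i2, Q, P, H, hEnd, by rw [r2, mul_comm], ?_, hg⟩
    have e1 : t * D ^ (k - 1) = D ^ (k - 1) * t := mul_comm _ _
    rw [e1] at r1
    omega
  · have hk : 1 ≤ k := by
      rcases Nat.eq_zero_or_pos k with rfl | h5
      · omega
      · exact h5
    have hl : 1 ≤ l := by
      rcases Nat.eq_zero_or_pos l with rfl | h5
      · omega
      · exact h5
    obtain ⟨n, i1, i2, Q, P, H, hEnd, r2, r1, hg⟩ := sharp_unitary k l hk hl hs
    exact ⟨n, i1, i2, Q, P, H, hEnd, r2, by omega, hg⟩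
  · obtain ⟨n, i1, i2, Q, P, H, hEnd, r2, r1, hg⟩ := sharp_exterior M i (by omega) hi
    exact ⟨n, i1, i2, Q, P, H, hEnd, r2, by rw [r1, add_comm], hg⟩
  · obtain ⟨n, i1, i2, Q, P, H, hEnd, r2, r1, hg⟩ := sharp_cartan M i hM
    exact ⟨n, i1, i2, Q, P, H, hEnd, by omega, by omega, hg⟩
  · obtain ⟨n, i1, i2, Q, P, H, hEnd, r2, r1, hg⟩ := sharp_mid (2 * i + 2) i hi rfl he
    refine ⟨n, i1, i2, Q, P, H, hEnd, r2, ?_, hg⟩
    rw [r1, ← Nat.choose_symm (show i ≤ 2 * i + 2 by omega), show 2 * i + 2 - i = i + 2 by omega]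
    ring
  · obtain ⟨q, hq⟩ := he
    obtain ⟨n, i1, i2, Q, P, H, hEnd, r2, r1, hg⟩ := sharp_mid2 (i + 2) (by omega) ⟨q + 1, by omega⟩
    rw [show 2 * (i + 2) - 2 = 2 * i + 2 by omega] at r2 r1
    rw [show i + 2 - 1 = i + 1 by omega] at r1
    refine ⟨n, i1, i2, Q, P, H, hEnd, ?_, r1, hg⟩
    rw [r2, ← Nat.choose_symm (show i ≤ 2 * i + 2 by omega)]
    congr 1
    omega
  · obtain ⟨n, i1, i2, Q, P, H, hEnd, r2, r1, hg⟩ := sharp_quaternion (r + 1) (by omega)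
    have r2' : (P 2).rank = 2 * r := by omega
    refine ⟨n, i1, i2, Q, P, H, hEnd, r2', ?_, hg⟩
    rw [r2'] at r1
    obtain ⟨m, rfl⟩ : ∃ m, r = m + 1 := ⟨r - 1, by omega⟩
    rw [h4, show 2 * (m + 1) - 1 = 2 * m + 1 by omega]
    nlinarith
  · obtain ⟨n, i1, i2, Q, P, H, hEnd, r2, r1, hg⟩ := sharp_prim r i he hir
    exact ⟨n, i1, i2, Q, P, H, hEnd, by omega, by omega, hg⟩
  · obtain ⟨n, i1, i2, Q, P, H, hEnd, r2, r1, hg⟩ := sharp_quat_alt r hr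
    exact ⟨n, i1, i2, Q, P, H, hEnd, by omega, by omega, hg⟩
  · obtain ⟨n, i1, i2, Q, P, H, hEnd, r2, r1, hg⟩ := sharp_ext r hr
    exact ⟨n, i1, i2, Q, P, H, hEnd, by omega, by omega, hg⟩
  · obtain ⟨n, i1, i2, Q, P, H, hEnd, r2, r1, hg⟩ := sharp_sym r (by omega)
    exact ⟨n, i1, i2, Q, P, H, hEnd, by omega, by omega, hg⟩
  · obtain ⟨n, i1, i2, Q, P, H, hEnd, r2, r1, hg⟩ := sharp_quat_sym r hr
    exact ⟨n, i1, i2, Q, P, H, hEnd, by omega, by omega, hg⟩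
  · obtain ⟨n, i1, i2, Q, P, H, hEnd, r2, r1, -, hg⟩ := sharp_G2
    exact ⟨n, i1, i2, Q, P, H, hEnd, r2, r1, hg⟩
  · exact sharp_F4
  · exact sharp_E6
  · exact sharp_E7

/-- The primitive Hodge numbers `s, h, s` of the smooth surfaces of degree `t + 3 ≥ 5` in the projective space: the pair
`(s, h)` is not in the list if `2 s + h + 1` is not a square, and `gcd(s, h) ^ 2 < 2 s + h`. -/
theorem surfaces (t s h : ℕ) (ht : 2 ≤ t) (hs : 6 * s = (t + 2) * (t + 1) * t)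
    (hh : 3 * h = (t + 2) * (2 * t ^ 2 + 8 * t + 9)) (hsq : ¬ IsSquare (2 * s + h + 1)) :
    ¬ Exc s h ∧ Nat.gcd s h ^ 2 < 2 * s + h := by
  refine ⟨fun hx => ?_, LT.gcd_surf ht hs hh⟩
  have hn : 2 * s + h = (t + 2) * (t ^ 2 + 3 * t + 3) := by nlinarith
  have hs2 : 2 ≤ s := by nlinarith
  rw [hn] at hsq
  exact LT.surf ht hs hh hsq (exc_to hs2 hx)

/-- The primitive Hodge numbers of the double planes with a smooth branch curve of degree `2 e ≥ 8` are not in the list, and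
`gcd(s, h) ^ 2 < 2 s + h`. -/
theorem double_planes (e s h : ℕ) (he : 4 ≤ e) (hs : 2 * s = (e - 1) * (e - 2)) (hh : h = 3 * e * (e - 1) + 1) :
    ¬ Exc s h ∧ Nat.gcd s h ^ 2 < 2 * s + h := by
  refine ⟨fun hx => ?_, LT.gcd_dpl he hs hh⟩
  have hs2 : 2 ≤ s := by
    obtain ⟨q, rfl⟩ : ∃ q, e = q + 4 := ⟨e - 4, by omega⟩
    rw [show q + 4 - 1 = q + 3 by omega, show q + 4 - 2 = q + 2 by omega] at hs
    nlinarith
  exact LT.dpl he hs hh (exc_to hs2 hx)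

/-- The Hodge numbers `s, 10 s + 8, s` of the orthogonal complement of a fibre and a section in `H ^ 2` of an elliptic surface
over the projective line, `p_g = s ≥ 2`, are not in the list if `12 s + 9` is not a square, and `gcd(s, h) ^ 2 < 2 s + h`. -/
theorem elliptic (s : ℕ) (hs : 2 ≤ s) (hsq : ¬ IsSquare (12 * s + 9)) :
    ¬ Exc s (10 * s + 8) ∧ Nat.gcd s (10 * s + 8) ^ 2 < 2 * s + (10 * s + 8) :=
  ⟨fun hx => LT.ell hs rfl hsq (exc_to hs hx), LT.gcd_ell hs⟩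

/-- Let `s ≥ 2` and `h > 0`.

(1) There is a polarised rational Hodge structure of weight two with the Hodge numbers `s, h, s`, only scalar endomorphisms
and a Mumford-Tate group smaller than the group `G_Q` of all similitudes `g` (`gᵀ Q g = z ^ 2 Q`, `det g = z ^ n`) if and
only if the pair `(s, h)` is in the explicit list `Exc`.

(2) Let `(s, h)` be not in the list, and let `V = ℚ^n` carry a rational Hodge structure of even weight `w` (given by the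
projections `P p` to the subspaces `V^{p, w-p}`) polarised by the form with matrix `Q`, the endomorphisms of which are the
rational numbers, with three Hodge numbers `s, h, s`. Then the Mumford-Tate group is `G_Q`. Moreover let `Γ` be a group of
similitudes of `ℚ_ℓ^n` with a Hodge-Tate decomposition of the same ranks. If `Γ` contains a monodromy group with an element
of infinite order, or if `Γ` is semisimple, its complex Tate tensors of type `(1, 1)` are fixed by the Mumford-Tate group, and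
`gcd(s, h) = 1` or `gcd(s, h) ^ 2 < 2 s + h` and `Γ` is generated by its cocharacters with the Hodge multiplicities (`IsGen`),
then the tensors of all types fixed by subgroups of finite index of `Γ` are exactly the tensors fixed by the Mumford-Tate
group. (Families of surfaces to which this applies: `surfaces`, `double_planes`, `elliptic`.) -/
theorem result (s h : ℕ) (hs : 2 ≤ s) (hh : 0 < h) :
    ((∃ (n : Type) (_ : Fintype n) (_ : DecidableEq n) (Q : Matrix n n ℚ) (S : Finset ℤ) (P : ℤ → Matrix n n ℂ),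
        IsHW 2 Q S P ∧ (∀ A : Matrix n n ℚ, (∀ p, toC A * P p = P p * toC A) → ∃ c : ℚ, A = c • (1 : Matrix n n ℚ)) ∧
        (P 2).rank = s ∧ (P 1).rank = h ∧ (∀ p, p ≠ 2 → p ≠ 1 → p ≠ 0 → P p = 0) ∧
        ¬ ∀ g : GL n ℂ, g ∈ MT S P ↔ IsGQ 2 Q g) ↔ Exc s h) ∧
    (¬ Exc s h → ∀ (n : Type) [Fintype n] [DecidableEq n] (w : ℤ) (Q : Matrix n n ℚ) (S : Finset ℤ)
      (P : ℤ → Matrix n n ℂ), IsHW w Q S P →
      (∀ A : Matrix n n ℚ, (∀ p, toC A * P p = P p * toC A) → ∃ c : ℚ, A = c • (1 : Matrix n n ℚ)) →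
      ∀ a b c : ℤ, a + b = w → 2 * c = w → c < a → (P a).rank = s → (P c).rank = h →
      (∀ p, p ≠ a → p ≠ c → p ≠ b → P p = 0) →
      (∀ g : GL n ℂ, g ∈ MT S P ↔ IsGQ w Q g) ∧
      ∀ (ℓ : ℕ) [Fact ℓ.Prime] (ι : ℚ_[ℓ] →+* ℂ) (Γ : Subgroup (GL n ℚ_[ℓ])) (R : ℤ → Matrix n n ℂ),
        IsGalP w Q S P (Γ.map (Matrix.GeneralLinearGroup.map ι)) R →
        (∃ D : Subgroup (GL n ℚ), IsMon Q S P D ∧
          D.map (Matrix.GeneralLinearGroup.map (algebraMap ℚ ℚ_[ℓ])) ≤ Γ) ∨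
        ((Nat.gcd s h = 1 ∨
            Nat.gcd s h ^ 2 < 2 * s + h ∧ IsGen w Q S P (Γ.map (Matrix.GeneralLinearGroup.map ι))) ∧ SemiS Γ ∧
          ∀ t, IsTateTensor (Γ.map (Matrix.GeneralLinearGroup.map ι)) 1 1 t → MTfix S P 1 1 t) →
        ∀ (k l : ℕ) (t : (Fin k ⊕ Fin l → n) → ℂ),
          IsTateTensor (Γ.map (Matrix.GeneralLinearGroup.map ι)) k l t ↔ MTfix S P k l t) := by
  have key : ¬ Exc s h → ∀ (n : Type) [Fintype n] [DecidableEq n] (w : ℤ) (Q : Matrix n n ℚ) (S : Finset ℤ)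
      (P : ℤ → Matrix n n ℂ), IsHW w Q S P →
      (∀ A : Matrix n n ℚ, (∀ p, toC A * P p = P p * toC A) → ∃ c : ℚ, A = c • (1 : Matrix n n ℚ)) →
      ∀ a b c : ℤ, a + b = w → 2 * c = w → c < a → (P a).rank = s → (P c).rank = h →
      (∀ p, p ≠ a → p ≠ c → p ≠ b → P p = 0) →
      (∀ g : GL n ℂ, g ∈ MT S P ↔ IsGQ w Q g) ∧
      ∀ (ℓ : ℕ) [Fact ℓ.Prime] (ι : ℚ_[ℓ] →+* ℂ) (Γ : Subgroup (GL n ℚ_[ℓ])) (R : ℤ → Matrix n n ℂ),
        IsGalP w Q S P (Γ.map (Matrix.GeneralLinearGroup.map ι)) R →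
        (∃ D : Subgroup (GL n ℚ), IsMon Q S P D ∧
          D.map (Matrix.GeneralLinearGroup.map (algebraMap ℚ ℚ_[ℓ])) ≤ Γ) ∨
        ((Nat.gcd s h = 1 ∨
            Nat.gcd s h ^ 2 < 2 * s + h ∧ IsGen w Q S P (Γ.map (Matrix.GeneralLinearGroup.map ι))) ∧ SemiS Γ ∧
          ∀ t, IsTateTensor (Γ.map (Matrix.GeneralLinearGroup.map ι)) 1 1 t → MTfix S P 1 1 t) →
        ∀ (k l : ℕ) (t : (Fin k ⊕ Fin l → n) → ℂ),
          IsTateTensor (Γ.map (Matrix.GeneralLinearGroup.map ι)) k l t ↔ MTfix S P k l t := by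
    intro hx n _ _ w Q S P H hEnd a b c haw hcw hca ha hc hP
    subst ha
    subst hc
    subst hcw
    have hN := LT.numsE_lt H haw hca hP (by omega) hh (by omega) (fun h1 => hx (exc_of h1))
    obtain ⟨h1, h2⟩ := LT.concl14 H hEnd hN
    have hcard : Fintype.card n = 2 * (P a).rank + (P c).rank := by
      have e1 := H.card_three55 (a := a) (b := b) (c := c) (by omega) (by omega) (by omega) hP
      have e2 := H.rank_refl55 a
      rw [show 2 * c - a = b by omega] at e2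
      omega
    refine ⟨h1, fun ℓ _ ι Γ R G hor k l t => ?_⟩
    rcases hor with h3 | ⟨h3 | ⟨h3, h5⟩, h4⟩
    · exact h2 ℓ ι Γ R G (Or.inl h3) k l t
    · refine (LT.concl H hEnd hN).2 ℓ ι Γ R G (Or.inr ⟨fun d hd => ?_, h4⟩) k l t
      exact Nat.eq_one_of_dvd_coprimes h3 (hd a) (hd c)
    · refine h2 ℓ ι Γ R G (Or.inr ⟨fun q q' hq hq' => ?_, h5, h4⟩) k l t
      rw [hcard]
      refine lt_of_le_of_lt ?_ h3
      rw [sq]
      have hpos : 0 < Nat.gcd (P a).rank (P c).rank := Nat.gcd_pos_of_pos_right _ hh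
      exact Nat.mul_le_mul (Nat.le_of_dvd hpos (Nat.dvd_gcd (hq a) (hq c)))
        (Nat.le_of_dvd hpos (Nat.dvd_gcd (hq' a) (hq' c)))
  refine ⟨⟨?_, fun hx => ?_⟩, key⟩
  · rintro ⟨n, _, _, Q, S, P, H, hEnd, h2, h1, hP, hMT⟩
    by_contra hx
    exact hMT (key hx n 2 Q S P H hEnd 2 0 1 (by norm_num) (by norm_num) (by norm_num) h2 h1 hP).1
  · obtain ⟨n, i1, i2, Q, P, H, hEnd, h2, h1, g, hg, hgM⟩ := sharp hs hh hx
    refine ⟨n, i1, i2, Q, {0, 1, 2}, P, H, hEnd, h2, h1, fun p p2 p1 p0 => H.supp p ?_, fun hMT => hgM ((hMT g).2 hg)⟩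
    simp only [Finset.mem_insert, Finset.mem_singleton]
    omega

end Pool.Agent.Results.MP_b8862a_ag.AllGeometricGenera
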