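import Pool.Agent.Helper2.RK.Main

/-!
Polarised rational Hodge structures of any weight whose endomorphisms are the rational numbers: for all dimensions outside an
explicit set with `O(√X)` elements below `X`, which contains no prime number greater than seven, the Hodge numbers show that
the Mumford-Tate group is the group of all similitudes, and so is the group of an `ℓ`-adic representation with the same Hodge
numbers.
-/

open Matrix MH

namespace Pool.Agent.Results.MP_b8862a_ag.AlmostAllRanks

/-- Let `E = ExSelf` be the set of the natural numbers less than nine, the proper powers, and the dimensions of the irreducible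
self-dual modules of simple Lie algebras other than `sl_2`, except the standard modules of the orthogonal and symplectic Lie
algebras (`SelfDim`). It has at most `C X ^ (1 / 2)` elements below `X` for every `X`, and contains no prime number greater
than seven and no positive number `n` with a prime factor `q` such that `50 n ≤ q ^ 2`.

Let `V = ℚ^n` carry a rational Hodge structure of weight `w` (given by the projections `P p` to the subspaces
`V^{p, w-p}`) polarised by the form with matrix `Q`, the endomorphisms of which are the rational numbers. Suppose that the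
dimension is a prime number greater than seven, or that it is not in `E` and the polynomial `∑ (h p) X ^ p` of the Hodge
numbers is not a product of two palindromic polynomials with non-negative integral coefficients and at least two terms (as for
a tensor product of two Hodge structures). Suppose that the Hodge numbers are not `1` on an arithmetic progression and `0`
elsewhere (as for a symmetric power of a Hodge structure with the numbers `1`, `1`); for example, that some `h p` is at least
two. Then the Mumford-Tate group consists of all `g` with `gᵀ Q g = z ^ 2 Q` and `det g = z ^ n`, `z = 1` if `w = 0`.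

Moreover let `Γ` be a group of similitudes of `ℚ_ℓ^n` (isometries if `w = 0`) with a Hodge-Tate decomposition of the same
ranks. If `Γ` contains a monodromy group with an element of infinite order, or if the Hodge numbers have no common divisor,
`Γ` is semisimple and its complex Tate tensors of type `(1, 1)` are fixed by the Mumford-Tate group, then the tensors of all
types fixed by subgroups of finite index of `Γ` are exactly the tensors fixed by the Mumford-Tate group. -/
theorem result :
    (∃ C : ℝ, ∀ X : ℕ, (Nat.card {n : Fin X // (n : ℕ) ∈ ExSelf} : ℝ) ≤ C * Real.sqrt X) ∧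
    (∀ q : ℕ, q.Prime → 7 < q → q ∉ ExSelf) ∧
    (∀ n q : ℕ, 0 < n → q.Prime → q ∣ n → 50 * n ≤ q ^ 2 → n ∉ ExSelf) ∧
    ∀ (n : Type) [Fintype n] [DecidableEq n] (w : ℤ) (Q : Matrix n n ℚ) (S : Finset ℤ) (P : ℤ → Matrix n n ℂ),
      IsHW w Q S P →
      (∀ A : Matrix n n ℚ, (∀ p, toC A * P p = P p * toC A) → ∃ c : ℚ, A = c • (1 : Matrix n n ℚ)) →
      ((Fintype.card n).Prime ∧ 7 < Fintype.card n ∨
        Fintype.card n ∉ ExSelf ∧ NI.Indec w (fun p => (P p).rank)) →
      ¬ Arith (Fintype.card n) (fun p => (P p).rank) →
      (∀ g : GL n ℂ, g ∈ MT S P ↔ ∃ z : ℂ, (w = 0 → z = 1) ∧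
        (g : Matrix n n ℂ)ᵀ * toC Q * (g : Matrix n n ℂ) = z ^ 2 • toC Q ∧ (g : Matrix n n ℂ).det = z ^ Fintype.card n) ∧
      ∀ (ℓ : ℕ) [Fact ℓ.Prime] (ι : ℚ_[ℓ] →+* ℂ) (Γ : Subgroup (GL n ℚ_[ℓ])),
        IsGalQ w Q P (Γ.map (Matrix.GeneralLinearGroup.map ι)) →
        (∃ D : Subgroup (GL n ℚ), IsMon Q S P D ∧
          D.map (Matrix.GeneralLinearGroup.map (algebraMap ℚ ℚ_[ℓ])) ≤ Γ) ∨
        ((∀ d : ℕ, (∀ p, d ∣ (P p).rank) → d = 1) ∧ SemiS Γ ∧
          ∀ t, IsTateTensor (Γ.map (Matrix.GeneralLinearGroup.map ι)) 1 1 t → MTfix S P 1 1 t) →
        ∀ (a b : ℕ) (t : (Fin a ⊕ Fin b → n) → ℂ),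
          IsTateTensor (Γ.map (Matrix.GeneralLinearGroup.map ι)) a b t ↔ MTfix S P a b t := by
  refine ⟨half_self, fun _ hq h7 => (prime_all hq h7).1, fun _ _ hn hq hd h50 => (prime50_all hn hq hd h50).1,
    fun n _ _ w Q S P H hEnd hn hA => ?_⟩
  rcases hn with ⟨hp, h7⟩ | ⟨hn, hI⟩
  · exact RK.main H hEnd (prime_all hp h7).1 (RK.indec_prime H hp) hA
  · exact RK.main H hEnd hn hI hA

end Pool.Agent.Results.MP_b8862a_ag.AlmostAllRanks
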