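import Pool.Agent.Helper21.MH.Hodge4
import Pool.Agent.Helper21.MH.Sim
import Pool.Agent.Helper2.MON.Tate
import Pool.Agent.Helper34.EL.Pair
import Pool.Agent.Helper54.EL.Abs

/-!
Polarised rational Hodge structures of even weight whose middle Hodge number dominates the other ones: the
Mumford-Tate group is as large as possible, and so is the group of an `ℓ`-adic representation with the same Hodge
numbers that contains the monodromy group of a family or is potentially absolutely irreducible.
-/

open Matrix MH

namespace Pool.Agent.Results.MP_b8862a_ag.DominatingMiddle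

/-- Let `V = ℚ^n` carry a rational Hodge structure of weight `2 m` (given by the projections `P p` to the
subspaces `V^{p, 2m-p}`) polarised by the symmetric form with Gram matrix `Q`, whose only endomorphisms are the
rational numbers. Let `s ≥ 2` be the sum of the Hodge numbers `h^{p, 2m-p}` with `p > m`. If `h^{m,m} > s²`, then
(1) the Mumford-Tate group of `V` consists of the products of the isometries of determinant one with the scalars
(only of these isometries if the weight is zero);
(2) if `Γ` is a group of similitudes of `ℚ_ℓ^n` (isometries if the weight is zero) with a Hodge-Tate decomposition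
of the same ranks, and either `Γ` contains a group `D` of rational isometries with an element of infinite order
such that the tensors fixed by subgroups of finite index of `D` are stable under the Hodge cocharacter (a monodromy
group, by the theorem of the fixed part), or the Hodge numbers have no common divisor and `Γ` is absolutely
irreducible under all subgroups of finite index, then the tensors fixed by subgroups of finite index of `Γ` are
exactly the tensors fixed by the Mumford-Tate group. -/
theorem result {n : Type*} [Fintype n] [DecidableEq n] (m : ℤ) (Q : Matrix n n ℚ) (S : Finset ℤ)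
    (P : ℤ → Matrix n n ℂ) (H : IsHS m Q S P)
    (hEnd : ∀ A : Matrix n n ℚ, (∀ p, toC A * P p = P p * toC A) → ∃ c : ℚ, A = c • (1 : Matrix n n ℚ))
    (s : ℕ) (hs : s = ∑ p ∈ S.filter (fun p => m < p), (P p).rank) (h2 : 2 ≤ s) (h3 : s ^ 2 < (P m).rank) :
    (∀ g : GL n ℂ, g ∈ MT S P ↔ ∃ z : ℂ, (m = 0 → z = 1) ∧
      (g : Matrix n n ℂ)ᵀ * toC Q * (g : Matrix n n ℂ) = z ^ 2 • toC Q ∧
        (g : Matrix n n ℂ).det = z ^ Fintype.card n) ∧
    (∀ (ℓ : ℕ) [Fact ℓ.Prime] (ι : ℚ_[ℓ] →+* ℂ) (Γ : Subgroup (GL n ℚ_[ℓ])) (R : ℤ → Matrix n n ℂ),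
      IsGal m Q S P (Γ.map (Matrix.GeneralLinearGroup.map ι)) R →
      (∃ D : Subgroup (GL n ℚ), IsMon Q S P D ∧
        D.map (Matrix.GeneralLinearGroup.map (algebraMap ℚ ℚ_[ℓ])) ≤ Γ) ∨
      ((∀ d : ℕ, (∀ p, d ∣ (P p).rank) → d = 1) ∧ PotIrr Γ) →
      ∀ (a b : ℕ) (t : (Fin a ⊕ Fin b → n) → ℂ),
        IsTateTensor (Γ.map (Matrix.GeneralLinearGroup.map ι)) a b t ↔
          ∀ g ∈ MT S P, actF (slot a b (g : Matrix n n ℂ) ((g⁻¹ : GL n ℂ) : Matrix n n ℂ)) t = t) := by
  subst hs
  have hMT : ∀ (g : GL n ℂ) (z : ℂ), (m = 0 → z = 1) →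
      (g : Matrix n n ℂ)ᵀ * toC Q * (g : Matrix n n ℂ) = z ^ 2 • toC Q →
      (g : Matrix n n ℂ).det = z ^ Fintype.card n → g ∈ MT S P :=
    fun g z hz hg hd => zso_le_MT H (fun g hg hd => so_le_MT4 H hEnd h2 h3 hg hd) hz hg hd
  have hn : 5 ≤ Fintype.card n := by
    have h6 := Matrix.rank_le_card_height (P m)
    have h7 : 2 ^ 2 ≤ (∑ p ∈ S.filter (fun p => m < p), (P p).rank) ^ 2 := Nat.pow_le_pow_left h2 2
    omega
  have hne : Nonempty n := Fintype.card_pos_iff.mp (by omega)
  refine ⟨fun g => ⟨fun hg => MT_le H hg, ?_⟩, ?_⟩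
  · rintro ⟨z, hz, hg, hd⟩
    exact hMT g z hz hg hd
  · intro ℓ _ ι Γ R G hΓ a b t
    rcases hΓ with ⟨D, hD, hDΓ⟩ | ⟨hgcd, hP⟩
    · have hle : mapC D ≤ Γ.map (Matrix.GeneralLinearGroup.map ι) := by
        refine le_trans (le_of_eq ?_) (Subgroup.map_mono hDΓ)
        rw [mapC, Subgroup.map_map]
        congr 1
        ext g i j
        simp [Matrix.GeneralLinearGroup.map_apply]
      exact tate_of_full H G hMT (fun X hX => LG_mono hle (hD.full H.toHW (even_two_mul m) hn
        (fun X hX => so_kills4 H hEnd h2 h3 hX) hX)) a b t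
    · exact tate_iff4 H G (vIrr_of_potIrr ι hP) hMT h2 h3 hgcd a b t

end Pool.Agent.Results.MP_b8862a_ag.DominatingMiddle
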