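import Pool.Agent.Helper43.RF.Crit

/-!
Strong symplectic Mumford-Tate pairs of weights zero and one with a semisimple standard
representation (all Albert types), such that the cocharacter is conjugate to its opposite and its
conjugacy class is fixed by the symmetries (the case of the semistable abelian varieties over the
rational numbers), with places of bad reduction and Frobenius elements: the complete list of the
dimensions, signs, toric ranks and numbers of eigenvalues of Frobenius of the irreducible
subrepresentations which force the group to contain the derived group of the Lefschetz group.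
-/

open Module MTPairs

namespace Pool.Agent.Results.MP_b8862a_ag.SemistableRational

/-- Let `R` be a set of quadruples `(D, e, r, k)`. The following are equivalent: every strong
symplectic Mumford-Tate pair of weights `0` and `1` (the group `G` is generated by the conjugates
of one cocharacter, given by the idempotent `π`, under `G` and under a group `Γ` of semilinear
automorphisms normalising `G`), whose standard representation is semisimple, whose cocharacter
is conjugate in `G` to the opposite one, and such that every irreducible subrepresentation `W`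
has a sign `e`, a place of bad reduction of toric rank `r` and (if `r` is not zero) a Frobenius
element at a place of bad reduction of rank `r` with `k` eigenvalues on `ker N / im N`, with
`(dim W, e, r, k)` in `R` (for `r = 0` there is no condition), and some subgroup `Γ₁` of `Γ`
satisfies the local condition `LocAt` (dense in `Γ₁` are the elements of `Γ` which fix the
conjugacy class under `G` of some conjugate of `π`, or commute with a unipotent element of a
place of bad reduction), where either `Γ₁ = Γ`, or the sign is `-1`, `W` is stable under `Γ` and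
the index of `Γ₁` in `Γ` is prime to each odd `k ≥ 3` such that the dimension of `W` is a `k`-th
power, contains all the isometries of the form with Gram matrix `J` which commute with all the
endomorphisms of the representation and have determinant one on every irreducible
subrepresentation; the set `R` contains no quadruple `(2 ^ n, e, r, k)` with `n ≥ 3`, the sign
`e = (-1) ^ (n (n + 1) / 2)`, or `e = 0` and `n` even, and `r = 0`, or `r = 2 ^ (n - 2)` and
`k = 1, 2`, or `r = 2 ^ (n - 1)` and `k = 0`. -/
theorem result {K : Type*} [Field K] [IsAlgClosed K] [CharZero K] (R : Set (ℕ × ℤ × ℕ × ℕ)) :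
    (∀ (m : Type) [Fintype m] [DecidableEq m] (Γ : Subgroup (Equiv.Perm (m → K)))
      (J : Matrix m m K) (G : Subgroup (Matrix.GeneralLinearGroup m K)) (π : Matrix m m K),
      IsStrongMTPair Γ J G π → IsReductiveRep G → IsSelfOpposite G π →
      (∀ W, IsIrrSub G W → ∃ e r k, HasSign J G W e ∧ BadAt Γ G π W r ∧
        (r ≠ 0 → HasFrob Γ G π W r k) ∧ (finrank K W, e, r, k) ∈ R ∧
        ∃ Γ₁ ≤ Γ, LocAt Γ₁ Γ G π W ∧ (Γ₁ = Γ ∨ (e = -1 ∧ (∀ θ ∈ Γ, ∀ v ∈ W, θ v ∈ W) ∧
          ∀ d k, Odd k → 3 ≤ k → finrank K W = d ^ k → Nat.Coprime k (Γ₁.relIndex Γ)))) →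
      ContainsDer J G) ↔
    ∀ n e r k, 3 ≤ n → (e = (-1) ^ (n * (n + 1) / 2) ∨ (Even n ∧ e = 0)) →
      (r = 0 ∨ (r = 2 ^ (n - 2) ∧ (k = 1 ∨ k = 2)) ∨ (r = 2 ^ (n - 1) ∧ k = 0)) →
      (2 ^ n, e, r, k) ∉ R := by
  rw [RF.criterion R]
  constructor
  · rintro h n e r k hn he hr
    obtain ⟨h1, h2, h3⟩ := h n r k hr
    rcases he with he | ⟨hn', rfl⟩
    · rcases RF.sign_cases n with ⟨h4, h5⟩ | ⟨h4, h5⟩
      · rw [he, h5]
        exact h1 (by omega) h4
      · rw [he, h5]
        exact h2 hn h4
    · exact h3 (by obtain ⟨a, ha⟩ := hn'; omega) hn'
  · intro h n r k hr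
    refine ⟨fun hn hc => ?_, fun hn hc => ?_, fun hn hc => ?_⟩
    · refine h n _ r k (by omega) (Or.inl ?_) hr
      rcases RF.sign_cases n with ⟨-, h5⟩ | ⟨h4, -⟩
      · exact h5.symm
      · omega
    · refine h n _ r k hn (Or.inl ?_) hr
      rcases RF.sign_cases n with ⟨h4, -⟩ | ⟨-, h5⟩
      · omega
      · exact h5.symm
    · exact h n _ r k (by omega) (Or.inr ⟨hc, rfl⟩) hr

end Pool.Agent.Results.MP_b8862a_ag.SemistableRational
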